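import Mathlib
import Pool.Agent.H14.SokalQ

set_option autoImplicit false
open Finset

namespace Pool.Agent.Results.MP_f76da2_an.RealW

/-- The polynomial `P_n(z, w)`. -/
noncomputable def P (n : ℕ) (z w : ℂ) : ℂ := ∑ k ∈ range (n + 1), (n.choose k : ℂ) * z ^ k * w ^ (k * (n - k))

lemma conv (n : ℕ) (z w : ℂ) (hw : w ≠ 0) :
    P n z w = Pool.Agent.H14.SokalQ.P n (z * (w ^ n / w)) (w ^ 2)⁻¹ := by
  refine sum_congr rfl fun k hk => ?_
  obtain ⟨m, rfl⟩ := Nat.exists_eq_add_of_le (Nat.lt_succ_iff.1 (mem_range.1 hk))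
  rw [show k + m - k = m by omega, inv_pow, ← pow_mul, Nat.mul_div_cancel' (Nat.even_mul_pred_self k).two_dvd]
  rcases k with _ | k
  · simp
  · rw [Nat.add_sub_cancel, mul_pow z, div_pow]
    field_simp
    ring

theorem result (n : ℕ) (w : ℂ) (hw : 1 < ‖w‖) (h : w.im = 0 ∨ w.re = 0) : ∃ r : ℕ → ℂ, (∀ j, r j ≠ 0) ∧
    (∀ j, ‖w‖ ^ 2 * ‖r j‖ ≤ ‖r (j + 1)‖) ∧ (∀ i j, i < j → ‖r i‖ < ‖r j‖) ∧
    ∀ z : ℂ, P n z w = ∏ j ∈ range n, (1 - z / r j) := by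
  have w0 : w ≠ 0 := norm_pos_iff.1 (by linarith)
  have ht : (((w ^ 2).re : ℝ) : ℂ) = w ^ 2 := by
    refine Complex.ext (by simp) ?_
    rcases h with h | h <;> simp [sq, h]
  have ha : |(w ^ 2).re| = ‖w‖ ^ 2 := by rw [← Real.norm_eq_abs, ← Complex.norm_real, ht, norm_pow]
  have h1 : 1 < ‖w‖ ^ 2 := by nlinarith
  have t0 : (w ^ 2).re ≠ 0 := abs_pos.1 (by linarith)
  obtain ⟨r, p, s, l, e⟩ := Pool.Agent.H14.SokalQ.realq n ((w ^ 2).re)⁻¹ (inv_ne_zero t0)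
    (by rw [abs_inv, ha]; exact inv_lt_one_of_one_lt₀ h1)
  have c0 : w ^ n / w ≠ 0 := div_ne_zero (pow_ne_zero _ w0) w0
  have c1 : 0 < ‖w ^ n / w‖ := norm_pos_iff.2 c0
  have nr : ∀ j, ‖(r j : ℂ) / (w ^ n / w)‖ = |r j| / ‖w ^ n / w‖ := fun j => by
    rw [norm_div, Complex.norm_real, Real.norm_eq_abs]
  refine ⟨fun j => r j / (w ^ n / w), fun j => div_ne_zero (by exact_mod_cast p j) c0, fun j => ?_,
    fun i j hij => ?_, fun z => ?_⟩
  · have := s j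
    rw [abs_inv, ha, le_inv_mul_iff₀ (by linarith)] at this
    simp only [nr]
    rw [← mul_div_assoc]
    exact div_le_div_of_nonneg_right this c1.le
  · simp only [nr]
    exact div_lt_div_of_pos_right (l i j hij) c1
  · rw [conv n z w w0, ← ht, ← Complex.ofReal_inv, e]
    refine prod_congr rfl fun j _ => ?_
    rw [div_div_eq_mul_div z]

end Pool.Agent.Results.MP_f76da2_an.RealW
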